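import Mathlib

set_option autoImplicit false

/-!
Expected numbers of visits of a walk on the triangle, as solutions of linear recursions
(indices are shifted by two, so that there are no boundary terms).
-/

namespace Pool.Agent.Q280.Fam

/-- `gam q s r z (n+2) (i+2) (j+2)` is the sum over `i' ≤ i`, `j' ≤ j` of the coefficients of
`x^n y^i' w^j'` in `1 / (1 - q x² - s y² - r w² - z x y w)`. -/
noncomputable def gam (q s r z : ℝ) : ℕ → ℕ → ℕ → ℝ
  | n + 2, i + 2, j + 2 => (if n = 0 then 1 else 0) + q * gam q s r z n (i + 2) (j + 2)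
      + s * gam q s r z (n + 2) i (j + 2) + r * gam q s r z (n + 2) (i + 2) j
      + z * gam q s r z (n + 1) (i + 1) (j + 1)
  | 0, _, _ => 0
  | 1, _, _ => 0
  | _, 0, _ => 0
  | _, 1, _ => 0
  | _, _, 0 => 0
  | _, _, 1 => 0
termination_by n i j => n + i + j

/-- the same with `j' = j` -/
noncomputable def uu (q s r z : ℝ) : ℕ → ℕ → ℕ → ℝ
  | n + 2, i + 2, j + 2 => (if n = 0 ∧ j = 0 then 1 else 0) + q * uu q s r z n (i + 2) (j + 2)
      + s * uu q s r z (n + 2) i (j + 2) + r * uu q s r z (n + 2) (i + 2) j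
      + z * uu q s r z (n + 1) (i + 1) (j + 1)
  | 0, _, _ => 0
  | 1, _, _ => 0
  | _, 0, _ => 0
  | _, 1, _ => 0
  | _, _, 0 => 0
  | _, _, 1 => 0
termination_by n i j => n + i + j

section basic

variable (q s r z : ℝ)

lemma gam_rec (n i j : ℕ) : gam q s r z (n + 2) (i + 2) (j + 2) =
    (if n = 0 then 1 else 0) + q * gam q s r z n (i + 2) (j + 2)
      + s * gam q s r z (n + 2) i (j + 2) + r * gam q s r z (n + 2) (i + 2) j
      + z * gam q s r z (n + 1) (i + 1) (j + 1) := by
  rw [gam]

lemma uu_rec (n i j : ℕ) : uu q s r z (n + 2) (i + 2) (j + 2) =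
    (if n = 0 ∧ j = 0 then 1 else 0) + q * uu q s r z n (i + 2) (j + 2)
      + s * uu q s r z (n + 2) i (j + 2) + r * uu q s r z (n + 2) (i + 2) j
      + z * uu q s r z (n + 1) (i + 1) (j + 1) := by
  rw [uu]

lemma gam_zero {n i j : ℕ} (h : n < 2 ∨ i < 2 ∨ j < 2) : gam q s r z n i j = 0 := by
  unfold gam
  split <;> first | rfl | omega

lemma uu_zero {n i j : ℕ} (h : n < 2 ∨ i < 2 ∨ j < 2) : uu q s r z n i j = 0 := by
  unfold uu
  split <;> first | rfl | omega

end basic

lemma exists_shift (n i j : ℕ) : (n < 2 ∨ i < 2 ∨ j < 2) ∨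
    ∃ n' i' j', n = n' + 2 ∧ i = i' + 2 ∧ j = j' + 2 := by
  by_cases h : n < 2 ∨ i < 2 ∨ j < 2
  · exact Or.inl h
  · exact Or.inr ⟨n - 2, i - 2, j - 2, by omega, by omega, by omega⟩

lemma gam_symm (q s r z : ℝ) : ∀ m n i j : ℕ, n + i + j ≤ m →
    gam q s r z n i j = gam q r s z n j i := by
  intro m
  induction m with
  | zero => intro n i j h; rw [gam_zero, gam_zero] <;> omega
  | succ m ih =>
    intro n i j h
    rcases exists_shift n i j with h1 | ⟨n, i, j, rfl, rfl, rfl⟩
    · rw [gam_zero _ _ _ _ h1, gam_zero _ _ _ _ (by omega)]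
    · rw [gam_rec, gam_rec, ih n (i + 2) (j + 2) (by omega), ih (n + 2) i (j + 2) (by omega),
        ih (n + 2) (i + 2) j (by omega), ih (n + 1) (i + 1) (j + 1) (by omega)]
      ring

lemma gam_diff (q s r z : ℝ) : ∀ m n i j : ℕ, n + i + j ≤ m →
    gam q s r z n i (j + 1) = gam q s r z n i j + uu q s r z n i (j + 1) := by
  intro m
  induction m with
  | zero => intro n i j h; rw [gam_zero, gam_zero, uu_zero] <;> first | omega | norm_num
  | succ m ih =>
    intro n i j h
    by_cases h1 : n < 2 ∨ i < 2 ∨ j = 0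
    · rw [gam_zero _ _ _ _ (by omega), gam_zero _ _ _ _ (by omega), uu_zero _ _ _ _ (by omega),
        zero_add]
    · push Not at h1
      obtain ⟨n, rfl⟩ : ∃ n', n = n' + 2 := ⟨n - 2, by omega⟩
      obtain ⟨i, rfl⟩ : ∃ i', i = i' + 2 := ⟨i - 2, by omega⟩
      obtain ⟨j, rfl⟩ : ∃ j', j = j' + 1 := ⟨j - 1, by omega⟩
      rcases Nat.eq_zero_or_pos j with rfl | hj
      · rw [gam_rec, gam_zero q s r z (n := n + 2) (i := i + 2) (j := 0 + 1) (by omega), uu_rec,
          gam_zero q s r z (n := n + 2) (i := i + 2) (j := 0) (by omega),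
          uu_zero q s r z (n := n + 2) (i := i + 2) (j := 0) (by omega),
          gam_zero q s r z (n := n + 1) (i := i + 1) (j := 0 + 1) (by omega),
          uu_zero q s r z (n := n + 1) (i := i + 1) (j := 0 + 1) (by omega),
          ih n (i + 2) 1 (by omega), ih (n + 2) i 1 (by omega),
          gam_zero q s r z (n := n) (i := i + 2) (j := 1) (by omega),
          gam_zero q s r z (n := n + 2) (i := i) (j := 1) (by omega)]
        simp
      · obtain ⟨j, rfl⟩ : ∃ j', j = j' + 1 := ⟨j - 1, by omega⟩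
        rw [show j + 1 + 1 + 1 = (j + 1) + 2 from rfl, gam_rec, uu_rec,
          show j + 1 + 1 = j + 2 from rfl, gam_rec]
        rw [show j + 1 + 2 = j + 2 + 1 from rfl, ih n (i + 2) (j + 2) (by omega),
          ih (n + 2) i (j + 2) (by omega), ih (n + 2) (i + 2) j (by omega),
          ih (n + 1) (i + 1) (j + 1) (by omega)]
        have : ¬ (n = 0 ∧ j + 1 = 0) := by omega
        rw [if_neg this]
        ring

/-- parity -/
lemma uu_parity (q s r z : ℝ) : ∀ m n i j : ℕ, n + i + j ≤ m → (n + j) % 2 = 1 →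
    uu q s r z n i j = 0 := by
  intro m
  induction m with
  | zero => intro n i j h _; rw [uu_zero]; omega
  | succ m ih =>
    intro n i j h hp
    rcases exists_shift n i j with h1 | ⟨n, i, j, rfl, rfl, rfl⟩
    · rw [uu_zero _ _ _ _ h1]
    · rw [uu_rec, ih n (i + 2) (j + 2) (by omega) (by omega),
        ih (n + 2) i (j + 2) (by omega) (by omega), ih (n + 2) (i + 2) j (by omega) (by omega),
        ih (n + 1) (i + 1) (j + 1) (by omega) (by omega), if_neg (by omega)]
      ring

section pos

variable {q s r z : ℝ} (hq : 0 ≤ q) (hs : 0 ≤ s) (hr : 0 ≤ r) (hz : 0 ≤ z)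
include hq hs hr hz

lemma uu_nonneg : ∀ m n i j : ℕ, n + i + j ≤ m → 0 ≤ uu q s r z n i j := by
  intro m
  induction m with
  | zero => intro n i j h; rw [uu_zero]; omega
  | succ m ih =>
    intro n i j h
    rcases exists_shift n i j with h1 | ⟨n, i, j, rfl, rfl, rfl⟩
    · rw [uu_zero _ _ _ _ h1]
    · rw [uu_rec]
      have h1 := mul_nonneg hq (ih n (i + 2) (j + 2) (by omega))
      have h2 := mul_nonneg hs (ih (n + 2) i (j + 2) (by omega))
      have h3 := mul_nonneg hr (ih (n + 2) (i + 2) j (by omega))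
      have h4 := mul_nonneg hz (ih (n + 1) (i + 1) (j + 1) (by omega))
      have h5 : (0 : ℝ) ≤ if n = 0 ∧ j = 0 then 1 else 0 := by split <;> norm_num
      linarith

lemma uu_mono : ∀ m n i j : ℕ, n + i + j ≤ m → uu q s r z n i j ≤ uu q s r z n (i + 1) j := by
  intro m
  induction m with
  | zero => intro n i j h; rw [uu_zero, uu_zero] <;> omega
  | succ m ih =>
    intro n i j h
    rcases exists_shift n i j with h1 | ⟨n, i, j, rfl, rfl, rfl⟩
    · rw [uu_zero _ _ _ _ h1]
      exact uu_nonneg hq hs hr hz _ _ _ _ (le_refl _)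
    · rw [uu_rec, show i + 2 + 1 = (i + 1) + 2 from rfl, uu_rec]
      have h1 := mul_le_mul_of_nonneg_left (ih n (i + 2) (j + 2) (by omega)) hq
      have h2 := mul_le_mul_of_nonneg_left (ih (n + 2) i (j + 2) (by omega)) hs
      have h3 := mul_le_mul_of_nonneg_left (ih (n + 2) (i + 2) j (by omega)) hr
      have h4 := mul_le_mul_of_nonneg_left (ih (n + 1) (i + 1) (j + 1) (by omega)) hz
      rw [show i + 2 + 1 = i + 1 + 2 from rfl] at h1 h3
      linarith

lemma uu_mono2 (n i j : ℕ) : uu q s r z n i j ≤ uu q s r z n (i + 2) j :=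
  (uu_mono hq hs hr hz _ _ _ _ (le_refl _)).trans (uu_mono hq hs hr hz _ _ _ _ (le_refl _))

/-- the comparison of the two boundary sums -/
lemma compare (hsr : s ≤ r) : ∀ m n i j : ℕ, n + i + j ≤ m →
    (∀ d, j = i + 2 + 2 * d → r ^ (d + 1) * uu q r s z n i j ≤ s ^ (d + 1) * uu q s r z n i j) ∧
    (∀ d, i + 2 = j + 2 * d → s ^ d * r * uu q r s z n i j ≤ r ^ d * s * uu q s r z n i j) := by
  intro m
  induction m with
  | zero =>
    intro n i j h
    rw [uu_zero _ _ _ _ (by omega), uu_zero _ _ _ _ (by omega)]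
    simp
  | succ m ih =>
    intro n i j h
    rcases exists_shift n i j with h1 | ⟨n, i, j, rfl, rfl, rfl⟩
    · rw [uu_zero _ _ _ _ h1, uu_zero _ _ _ _ h1]
      simp
    · have h1 := ih n (i + 2) (j + 2) (by omega)
      have h2 := ih (n + 2) i (j + 2) (by omega)
      have h3 := ih (n + 2) (i + 2) j (by omega)
      have h4 := ih (n + 1) (i + 1) (j + 1) (by omega)
      have hrs : 0 ≤ r * s := mul_nonneg hr hs
      rw [uu_rec, uu_rec]
      constructor
      · intro d hd
        rw [if_neg (by omega)]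
        have e1 := mul_le_mul_of_nonneg_left (h1.1 d (by omega)) hq
        have e2 := h2.1 (d + 1) (by omega)
        have e4 := mul_le_mul_of_nonneg_left (h4.1 d (by omega)) hz
        have e3 : r ^ (d + 1) * (s * uu q r s z (n + 2) (i + 2) j) ≤
            s ^ (d + 1) * (r * uu q s r z (n + 2) (i + 2) j) := by
          rcases Nat.eq_zero_or_pos d with rfl | hd0
          · have := h3.2 1 (by omega)
            calc _ = s ^ 1 * r * uu q r s z (n + 2) (i + 2) j := by ring
              _ ≤ _ := this
              _ = _ := by ring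
          · obtain ⟨d, rfl⟩ : ∃ d', d = d' + 1 := ⟨d - 1, by omega⟩
            have := mul_le_mul_of_nonneg_left (h3.1 d (by omega)) hrs
            calc _ = r * s * (r ^ (d + 1) * uu q r s z (n + 2) (i + 2) j) := by ring
              _ ≤ _ := this
              _ = _ := by ring
        have e2' : r ^ (d + 1) * (r * uu q r s z (n + 2) i (j + 2)) ≤
            s ^ (d + 1) * (s * uu q s r z (n + 2) i (j + 2)) := by
          calc _ = r ^ (d + 1 + 1) * uu q r s z (n + 2) i (j + 2) := by ring
            _ ≤ _ := e2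
            _ = _ := by ring
        nlinarith [e1, e2', e3, e4]
      · intro d hd
        have e1 := mul_le_mul_of_nonneg_left (h1.2 d (by omega)) hq
        have e3 := h3.2 (d + 1) (by omega)
        have e4 := mul_le_mul_of_nonneg_left (h4.2 d (by omega)) hz
        have e2 : s ^ d * r * (r * uu q r s z (n + 2) i (j + 2)) ≤
            r ^ d * s * (s * uu q s r z (n + 2) i (j + 2)) := by
          rcases Nat.eq_zero_or_pos d with rfl | hd0
          · have := h2.1 1 (by omega)
            calc _ = r ^ (1 + 1) * uu q r s z (n + 2) i (j + 2) := by ring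
              _ ≤ _ := this
              _ = _ := by ring
          · obtain ⟨d, rfl⟩ : ∃ d', d = d' + 1 := ⟨d - 1, by omega⟩
            have := mul_le_mul_of_nonneg_left (h2.2 d (by omega)) hrs
            calc _ = r * s * (s ^ d * r * uu q r s z (n + 2) i (j + 2)) := by ring
              _ ≤ _ := this
              _ = _ := by ring
        have e3' : s ^ d * r * (s * uu q r s z (n + 2) (i + 2) j) ≤
            r ^ d * s * (r * uu q s r z (n + 2) (i + 2) j) := by
          calc _ = s ^ (d + 1) * r * uu q r s z (n + 2) (i + 2) j := by ring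
            _ ≤ _ := e3
            _ = _ := by ring
        have e0 : s ^ d * r * (if n = 0 ∧ j = 0 then 1 else 0) ≤
            r ^ d * s * (if n = 0 ∧ j = 0 then 1 else 0) := by
          split
          · next hnj =>
            obtain ⟨d, rfl⟩ : ∃ d', d = d' + 1 := ⟨d - 1, by omega⟩
            have := mul_le_mul_of_nonneg_left (pow_le_pow_left₀ hs hsr d) hrs
            calc _ = r * s * s ^ d := by ring
              _ ≤ _ := this
              _ = _ := by ring
          · simp
        nlinarith [e0, e1, e2, e3', e4]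

end pos

end Pool.Agent.Q280.Fam
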