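import Pool.Agent.Q280.Fam.Core

set_option autoImplicit false

/-!
The tournament of three players: `i j` etc. are numbers of wins still needed; the last argument is
the player who sits out.
-/

namespace Pool.Agent.Q280.Fam

/-- father, mother, son -/
inductive Player
  | F
  | M
  | S
  deriving DecidableEq

/-- the win probability of the father -/
noncomputable def pr (a b c : ℝ) : ℕ → ℕ → ℕ → Player → ℝ
  | 0, _, _, _ => 1
  | _ + 1, 0, _, _ => 0
  | _ + 1, _ + 1, 0, _ => 0
  | n + 1, i + 1, j + 1, .S => a * pr a b c n (i + 1) (j + 1) .M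
      + (1 - a) * pr a b c (n + 1) i (j + 1) .F
  | n + 1, i + 1, j + 1, .M => b * pr a b c n (i + 1) (j + 1) .S
      + (1 - b) * pr a b c (n + 1) (i + 1) j .F
  | n + 1, i + 1, j + 1, .F => c * pr a b c (n + 1) i (j + 1) .S
      + (1 - c) * pr a b c (n + 1) (i + 1) j .M
termination_by n i j => n + i + j

lemma pr_zero (a b c : ℝ) (i j : ℕ) (o : Player) : pr a b c 0 i j o = 1 := by
  rw [pr]

lemma pr_i (a b c : ℝ) (n j : ℕ) (o : Player) : pr a b c (n + 1) 0 j o = 0 := by
  rw [pr]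

lemma pr_j (a b c : ℝ) (n i : ℕ) (o : Player) : pr a b c (n + 1) i 0 o = 0 := by
  cases i <;> rw [pr]

lemma pr_S (a b c : ℝ) (n i j : ℕ) : pr a b c (n + 1) (i + 1) (j + 1) .S =
    a * pr a b c n (i + 1) (j + 1) .M + (1 - a) * pr a b c (n + 1) i (j + 1) .F := by
  rw [pr]

lemma pr_M (a b c : ℝ) (n i j : ℕ) : pr a b c (n + 1) (i + 1) (j + 1) .M =
    b * pr a b c n (i + 1) (j + 1) .S + (1 - b) * pr a b c (n + 1) (i + 1) j .F := by
  rw [pr]

lemma pr_F (a b c : ℝ) (n i j : ℕ) : pr a b c (n + 1) (i + 1) (j + 1) .F =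
    c * pr a b c (n + 1) i (j + 1) .S + (1 - c) * pr a b c (n + 1) (i + 1) j .M := by
  rw [pr]

section formula

variable (a b c : ℝ)

/-- abbreviation -/
noncomputable def Gm (n i j : ℕ) : ℝ :=
  gam (a * b) (c * (1 - a)) ((1 - c) * (1 - b)) (c * a * (1 - b) + (1 - c) * b * (1 - a)) n i j

lemma Gm_rec (n i j : ℕ) : Gm a b c (n + 2) (i + 2) (j + 2) =
    (if n = 0 then 1 else 0) + (a * b) * Gm a b c n (i + 2) (j + 2)
      + (c * (1 - a)) * Gm a b c (n + 2) i (j + 2)
      + ((1 - c) * (1 - b)) * Gm a b c (n + 2) (i + 2) j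
      + (c * a * (1 - b) + (1 - c) * b * (1 - a)) * Gm a b c (n + 1) (i + 1) (j + 1) :=
  gam_rec _ _ _ _ _ _ _

lemma Gm_zero {n i j : ℕ} (h : n < 2 ∨ i < 2 ∨ j < 2) : Gm a b c n i j = 0 :=
  gam_zero _ _ _ _ h

lemma formula : ∀ m n i j : ℕ, n + i + j < m →
    (pr a b c (n + 1) (i + 1) (j + 1) .S = a * Gm a b c (n + 2) (i + 2) (j + 2)
      - a * ((1 - c) * (1 - b)) * Gm a b c (n + 2) (i + 2) j
      + a * b * Gm a b c (n + 1) (i + 2) (j + 2)
      + (1 - a) * b * (1 - c) * Gm a b c (n + 2) (i + 1) (j + 1)) ∧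
    (pr a b c (n + 1) (i + 1) (j + 1) .M = b * Gm a b c (n + 2) (i + 2) (j + 2)
      - b * (c * (1 - a)) * Gm a b c (n + 2) i (j + 2)
      + a * b * Gm a b c (n + 1) (i + 2) (j + 2)
      + a * (1 - b) * c * Gm a b c (n + 2) (i + 1) (j + 1)) ∧
    (pr a b c (n + 1) (i + 1) (j + 1) .F = c * a * Gm a b c (n + 2) (i + 1) (j + 2)
      + (1 - c) * b * Gm a b c (n + 2) (i + 2) (j + 1)
      + a * b * c * Gm a b c (n + 1) (i + 1) (j + 2)
      + a * b * (1 - c) * Gm a b c (n + 1) (i + 2) (j + 1)) := by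
  intro m
  induction m with
  | zero => intro n i j h; omega
  | succ m ih =>
    intro n i j h
    have hM : pr a b c n (i + 1) (j + 1) .M = (if n = 0 then 1 else 0)
        + (b * Gm a b c (n + 1) (i + 2) (j + 2) - b * (c * (1 - a)) * Gm a b c (n + 1) i (j + 2)
        + a * b * Gm a b c n (i + 2) (j + 2)
        + a * (1 - b) * c * Gm a b c (n + 1) (i + 1) (j + 1)) := by
      rcases n with _ | n
      · rw [pr_zero, Gm_zero a b c (n := 0 + 1) (by omega), Gm_zero a b c (n := 0 + 1) (by omega),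
          Gm_zero a b c (n := 0) (by omega), Gm_zero a b c (n := 0 + 1) (by omega)]
        simp
      · rw [(ih n i j (by omega)).2.1]
        simp
    have hS : pr a b c n (i + 1) (j + 1) .S = (if n = 0 then 1 else 0)
        + (a * Gm a b c (n + 1) (i + 2) (j + 2)
        - a * ((1 - c) * (1 - b)) * Gm a b c (n + 1) (i + 2) j
        + a * b * Gm a b c n (i + 2) (j + 2)
        + (1 - a) * b * (1 - c) * Gm a b c (n + 1) (i + 1) (j + 1)) := by
      rcases n with _ | n
      · rw [pr_zero, Gm_zero a b c (n := 0 + 1) (by omega), Gm_zero a b c (n := 0 + 1) (by omega),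
          Gm_zero a b c (n := 0) (by omega), Gm_zero a b c (n := 0 + 1) (by omega)]
        simp
      · rw [(ih n i j (by omega)).1]
        simp
    have hF1 : pr a b c (n + 1) i (j + 1) .F = c * a * Gm a b c (n + 2) i (j + 2)
        + (1 - c) * b * Gm a b c (n + 2) (i + 1) (j + 1)
        + a * b * c * Gm a b c (n + 1) i (j + 2)
        + a * b * (1 - c) * Gm a b c (n + 1) (i + 1) (j + 1) := by
      rcases i with _ | i
      · rw [pr_i, Gm_zero a b c (i := 0) (by omega), Gm_zero a b c (i := 0 + 1) (by omega),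
          Gm_zero a b c (i := 0) (by omega), Gm_zero a b c (i := 0 + 1) (by omega)]
        simp
      · exact (ih n i j (by omega)).2.2
    have hF2 : pr a b c (n + 1) (i + 1) j .F = c * a * Gm a b c (n + 2) (i + 1) (j + 1)
        + (1 - c) * b * Gm a b c (n + 2) (i + 2) j
        + a * b * c * Gm a b c (n + 1) (i + 1) (j + 1)
        + a * b * (1 - c) * Gm a b c (n + 1) (i + 2) j := by
      rcases j with _ | j
      · rw [pr_j, Gm_zero a b c (j := 0 + 1) (by omega), Gm_zero a b c (j := 0) (by omega),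
          Gm_zero a b c (j := 0 + 1) (by omega), Gm_zero a b c (j := 0) (by omega)]
        simp
      · exact (ih n i j (by omega)).2.2
    have hS1 : pr a b c (n + 1) i (j + 1) .S = a * Gm a b c (n + 2) (i + 1) (j + 2)
        - a * ((1 - c) * (1 - b)) * Gm a b c (n + 2) (i + 1) j
        + a * b * Gm a b c (n + 1) (i + 1) (j + 2)
        + (1 - a) * b * (1 - c) * Gm a b c (n + 2) i (j + 1) := by
      rcases i with _ | i
      · rw [pr_i, Gm_zero a b c (i := 0 + 1) (by omega), Gm_zero a b c (i := 0 + 1) (by omega),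
          Gm_zero a b c (i := 0 + 1) (by omega), Gm_zero a b c (i := 0) (by omega)]
        simp
      · exact (ih n i j (by omega)).1
    have hM2 : pr a b c (n + 1) (i + 1) j .M = b * Gm a b c (n + 2) (i + 2) (j + 1)
        - b * (c * (1 - a)) * Gm a b c (n + 2) i (j + 1)
        + a * b * Gm a b c (n + 1) (i + 2) (j + 1)
        + a * (1 - b) * c * Gm a b c (n + 2) (i + 1) j := by
      rcases j with _ | j
      · rw [pr_j, Gm_zero a b c (j := 0 + 1) (by omega), Gm_zero a b c (j := 0 + 1) (by omega),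
          Gm_zero a b c (j := 0 + 1) (by omega), Gm_zero a b c (j := 0) (by omega)]
        simp
      · exact (ih n i j (by omega)).2.1
    refine ⟨?_, ?_, ?_⟩
    · rw [pr_S, hM, hF1, Gm_rec]
      ring
    · rw [pr_M, hS, hF2, Gm_rec]
      ring
    · rw [pr_F, hS1, hM2]
      ring

end formula

section mono

variable {a b c : ℝ} (ha0 : 0 ≤ a) (ha1 : a ≤ 1) (hb0 : 0 ≤ b) (hb1 : b ≤ 1) (hc0 : 0 ≤ c)
  (hc1 : c ≤ 1)
include ha0 ha1 hb0 hb1 hc0 hc1

lemma pr_nonneg : ∀ m n i j : ℕ, n + i + j < m → ∀ o, 0 ≤ pr a b c n i j o := by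
  intro m
  induction m with
  | zero => intro n i j h; omega
  | succ m ih =>
    intro n i j h o
    rcases n with _ | n
    · rw [pr_zero]; exact zero_le_one
    rcases i with _ | i
    · rw [pr_i]
    rcases j with _ | j
    · rw [pr_j]
    rcases o with _ | _ | _
    · rw [pr_F]
      exact add_nonneg (mul_nonneg hc0 (ih _ _ _ (by omega) _))
        (mul_nonneg (by linarith) (ih _ _ _ (by omega) _))
    · rw [pr_M]
      exact add_nonneg (mul_nonneg hb0 (ih _ _ _ (by omega) _))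
        (mul_nonneg (by linarith) (ih _ _ _ (by omega) _))
    · rw [pr_S]
      exact add_nonneg (mul_nonneg ha0 (ih _ _ _ (by omega) _))
        (mul_nonneg (by linarith) (ih _ _ _ (by omega) _))

lemma pr_mono : ∀ m n i j : ℕ, n + i + j < m → ∀ o,
    pr a b c n i j o ≤ pr a b c n (i + 1) j o ∧ pr a b c n i j o ≤ pr a b c n i (j + 1) o := by
  intro m
  induction m with
  | zero => intro n i j h; omega
  | succ m ih =>
    intro n i j h o
    have h0 := pr_nonneg ha0 ha1 hb0 hb1 hc0 hc1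
    rcases n with _ | n
    · simp [pr_zero]
    rcases i with _ | i
    · constructor
      · rw [pr_i]; exact h0 _ _ _ _ (Nat.lt_succ_self _) _
      · rw [pr_i, pr_i]
    rcases j with _ | j
    · constructor
      · rw [pr_j, pr_j]
      · rw [pr_j]; exact h0 _ _ _ _ (Nat.lt_succ_self _) _
    rcases o with _ | _ | _
    · rw [pr_F, pr_F, pr_F]
      constructor
      · exact add_le_add (mul_le_mul_of_nonneg_left (ih _ _ _ (by omega) _).1 hc0)
          (mul_le_mul_of_nonneg_left (ih _ _ _ (by omega) _).1 (by linarith))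
      · exact add_le_add (mul_le_mul_of_nonneg_left (ih _ _ _ (by omega) _).2 hc0)
          (mul_le_mul_of_nonneg_left (ih _ _ _ (by omega) _).2 (by linarith))
    · rw [pr_M, pr_M, pr_M]
      constructor
      · exact add_le_add (mul_le_mul_of_nonneg_left (ih _ _ _ (by omega) _).1 hb0)
          (mul_le_mul_of_nonneg_left (ih _ _ _ (by omega) _).1 (by linarith))
      · exact add_le_add (mul_le_mul_of_nonneg_left (ih _ _ _ (by omega) _).2 hb0)
          (mul_le_mul_of_nonneg_left (ih _ _ _ (by omega) _).2 (by linarith))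
    · rw [pr_S, pr_S, pr_S]
      constructor
      · exact add_le_add (mul_le_mul_of_nonneg_left (ih _ _ _ (by omega) _).1 ha0)
          (mul_le_mul_of_nonneg_left (ih _ _ _ (by omega) _).1 (by linarith))
      · exact add_le_add (mul_le_mul_of_nonneg_left (ih _ _ _ (by omega) _).2 ha0)
          (mul_le_mul_of_nonneg_left (ih _ _ _ (by omega) _).2 (by linarith))

/-- playing the mother first is at least as good as playing the son first -/
theorem mother_son (hab : b ≤ a) (hc : c ≤ 1 / 2) (n : ℕ) :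
    pr a b c (n + 1) (n + 1) (n + 1) .M ≤ pr a b c (n + 1) (n + 1) (n + 1) .S := by
  obtain ⟨h1, h2, -⟩ := formula a b c _ n n n (Nat.lt_succ_self _)
  rw [h1, h2]
  obtain ⟨q, hq⟩ : ∃ q, q = a * b := ⟨_, rfl⟩
  obtain ⟨s, hs⟩ : ∃ s, s = c * (1 - a) := ⟨_, rfl⟩
  obtain ⟨r, hr⟩ : ∃ r, r = (1 - c) * (1 - b) := ⟨_, rfl⟩
  obtain ⟨z, hz⟩ : ∃ z, z = c * a * (1 - b) + (1 - c) * b * (1 - a) := ⟨_, rfl⟩
  have hA : 0 ≤ 1 - a := by linarith
  have hB : 0 ≤ 1 - b := by linarith
  have hC : 0 ≤ 1 - c := by linarith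
  have q0 : 0 ≤ q := by rw [hq]; positivity
  have s0 : 0 ≤ s := by rw [hs]; positivity
  have r0 : 0 ≤ r := by rw [hr]; positivity
  have z0 : 0 ≤ z := by rw [hz]; positivity
  have hsr : s ≤ r := by rw [hs, hr]; exact mul_le_mul (by linarith) (by linarith) hA hC
  have hr1 : r ≤ 1 := by
    rw [hr]; calc (1 - c) * (1 - b) ≤ 1 * 1 := mul_le_mul (by linarith) (by linarith) hB one_pos.le
      _ = 1 := by norm_num
  unfold Gm
  rw [← hq, ← hs, ← hr, ← hz]
  -- the four pieces
  have e1 : gam q s r z (n + 2) (n + 2) (n + 2) = gam q s r z (n + 2) (n + 1) (n + 1)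
      + uu q r s z (n + 2) (n + 1) (n + 2) + uu q s r z (n + 2) (n + 2) (n + 2) := by
    rw [gam_diff q s r z _ (n + 2) (n + 2) (n + 1) (le_refl _),
      gam_symm q s r z _ (n + 2) (n + 2) (n + 1) (le_refl _),
      gam_diff q r s z _ (n + 2) (n + 1) (n + 1) (le_refl _),
      gam_symm q r s z _ (n + 2) (n + 1) (n + 1) (le_refl _)]
  have e2 : gam q s r z (n + 2) (n + 2) n = gam q s r z (n + 2) (n + 1) (n + 1)
      + uu q r s z (n + 2) n (n + 2) := by
    rw [gam_symm q s r z _ (n + 2) (n + 2) n (le_refl _),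
      gam_diff q r s z _ (n + 2) n (n + 1) (le_refl _),
      gam_symm q r s z _ (n + 2) n (n + 1) (le_refl _),
      gam_diff q s r z _ (n + 2) (n + 1) n (le_refl _),
      uu_parity q s r z _ (n + 2) (n + 1) (n + 1) (le_refl _) (by omega)]
    ring
  have e3 : gam q s r z (n + 2) n (n + 2) = gam q s r z (n + 2) (n + 1) (n + 1)
      + uu q s r z (n + 2) n (n + 2) := by
    rw [gam_diff q s r z _ (n + 2) n (n + 1) (le_refl _),
      gam_symm q s r z _ (n + 2) (n + 1) (n + 1) (le_refl _),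
      gam_diff q r s z _ (n + 2) (n + 1) n (le_refl _),
      uu_parity q r s z _ (n + 2) (n + 1) (n + 1) (le_refl _) (by omega),
      gam_symm q s r z _ (n + 2) n (n + 1) (le_refl _)]
    ring
  have m1 : uu q r s z (n + 2) n (n + 2) ≤ uu q r s z (n + 2) (n + 1) (n + 2) :=
    uu_mono q0 r0 s0 z0 _ _ _ _ (le_refl _)
  have m2 : uu q s r z (n + 2) n (n + 2) ≤ uu q s r z (n + 2) (n + 2) (n + 2) :=
    uu_mono2 q0 s0 r0 z0 _ _ _
  have n1 : 0 ≤ uu q r s z (n + 2) n (n + 2) := uu_nonneg q0 r0 s0 z0 _ _ _ _ (le_refl _)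
  have n2 : 0 ≤ uu q s r z (n + 2) n (n + 2) := uu_nonneg q0 s0 r0 z0 _ _ _ _ (le_refl _)
  have k := (compare q0 s0 r0 z0 hsr _ (n + 2) n (n + 2) (le_refl _)).1 0 (by omega)
  rw [zero_add, pow_one, pow_one] at k
  rw [e1, e2, e3]
  generalize gam q s r z (n + 2) (n + 1) (n + 1) = G0 at *
  generalize gam q s r z (n + 1) (n + 2) (n + 2) = G1 at *
  generalize uu q r s z (n + 2) (n + 1) (n + 2) = X at *
  generalize uu q s r z (n + 2) (n + 2) (n + 2) = Y at *
  generalize uu q r s z (n + 2) n (n + 2) = Gi at *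
  generalize uu q s r z (n + 2) n (n + 2) = Gj at *
  have hd : 0 ≤ a - b := by linarith
  have t1 : 0 ≤ (a - b) * ((X - Gi) + (Y - Gj)) := mul_nonneg hd (by linarith)
  have t2 : 0 ≤ (a - b) * (Gj + (1 - r) * Gi) :=
    mul_nonneg hd (add_nonneg n2 (mul_nonneg (by linarith) n1))
  have t3 : 0 ≤ b * (s * Gj - r * Gi) := mul_nonneg hb0 (by linarith)
  have key : (a - b) - a * r + b * s + ((1 - a) * b * (1 - c) - a * (1 - b) * c) = 0 := by
    rw [hr, hs]; ring
  have key2 : ((a - b) - a * r + b * s + ((1 - a) * b * (1 - c) - a * (1 - b) * c)) * G0 = 0 := by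
    rw [key, zero_mul]
  nlinarith [t1, t2, t3, key2]

/-- the father should play in the first game -/
theorem mother_first (hab : b ≤ a) (hc : c ≤ 1 / 2) (n : ℕ) :
    pr a b c (n + 1) (n + 1) (n + 1) .F ≤ pr a b c (n + 1) (n + 1) (n + 1) .S := by
  have h := mother_son ha0 ha1 hb0 hb1 hc0 hc1 hab hc n
  have h1 := (pr_mono ha0 ha1 hb0 hb1 hc0 hc1 _ (n + 1) n (n + 1) (Nat.lt_succ_self _) .S).1
  have h2 := (pr_mono ha0 ha1 hb0 hb1 hc0 hc1 _ (n + 1) (n + 1) n (Nat.lt_succ_self _) .M).2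
  rw [pr_F]
  have h3 := mul_le_mul_of_nonneg_left h1 hc0
  have h4 := mul_le_mul_of_nonneg_left (h2.trans h) (show 0 ≤ 1 - c by linarith)
  linarith

end mono

end Pool.Agent.Q280.Fam
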